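import Pool.Agent.H648.Q.Defs2

/-!
# Project Q648: symmetry of the triples, positive proportion of triples
-/

set_option autoImplicit false

namespace Pool.Agent.H251.Q648

open Finset Filter
open Pool.Agent.H648.Q2
open Pool.Agent.W78.GA (Qd nm prim)
open Pool.Agent.W78.GT (Tr NT tri)

lemma TX_mono (g : ℕ → ℤ) (b m : ℤ) (A : ℕ) (κ : ℤ) {X Y : ℝ} (h : X ≤ Y) :
    TX g b m A κ X ⊆ TX g b m A κ Y := by
  classical
  intro e he
  unfold TX at *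
  rw [mem_filter] at *
  exact ⟨Pool.Agent.W78.GT.tri_mono h h he.1, he.2⟩

/-- the shifted triple is in `TX (-κ)` -/
lemma shift_mem {g : ℕ → ℤ} {b m : ℤ} {A : ℕ} (hchi : IsChi A (chi (b ^ 2 - 4 * m) A)) {κ : ℤ}
    (hA : (A : ℤ) ∣ κ) {X : ℝ} {e : Tr} (he : e ∈ TX g b m A κ X) :
    (e.1, e.2.1 + b * κ, e.2.2) ∈ TX g b m A (-κ) X := by
  classical
  unfold TX at *
  rw [mem_filter] at *
  obtain ⟨h1, h2, h3, h4⟩ := he
  obtain ⟨a1, a2, a3, a4, a5, a6⟩ := Pool.Agent.W78.GT.mem_tri.1 h1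
  refine ⟨Pool.Agent.W78.GT.mem_tri.2 ⟨a1, a2, a3, a4, ?_, ?_⟩, ?_, h3, ?_⟩
  · show (e.1 : ℤ) * e.2.2 = _
    rw [a5]
    unfold Pool.Agent.W78.GT.Qp
    ring
  · show 0 ≤ 2 * (e.2.1 + b * κ) + b * (-κ)
    linarith
  · show Int.gcd (e.2.1 + b * κ) (-κ) = 1
    rw [Int.gcd_neg, ← h2]
    rw [Int.gcd_add_mul_right_left]
  · show chi (b ^ 2 - 4 * m) A (e.2.1 + b * κ) = 1
    rw [← h4]
    refine hchi.per _ _ ?_
    rw [add_sub_cancel_left]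
    exact Dvd.dvd.mul_left hA _

/-- T3 -/
theorem sym_of {g : ℕ → ℤ} {b m : ℤ} {A : ℕ} (_hA : 1 ≤ A)
    (hchi : IsChi A (chi (b ^ 2 - 4 * m) A)) : S_SYM g b m A := by
  classical
  intro κ X _ hAκ
  refine Finset.card_bij' (fun e _ => (e.1, e.2.1 + b * κ, e.2.2))
    (fun e _ => (e.1, e.2.1 + b * (-κ), e.2.2)) ?_ ?_ ?_ ?_
  · intro e he
    exact shift_mem hchi hAκ he
  · intro e he
    have h1 := shift_mem hchi ((dvd_neg (α := ℤ)).2 hAκ) he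
    rw [neg_neg] at h1
    exact h1
  · intro e _
    ext
    · rfl
    · show e.2.1 + b * κ + b * (-κ) = e.2.1
      ring
    · rfl
  · intro e _
    ext
    · rfl
    · show e.2.1 + b * (-κ) + b * κ = e.2.1
      ring
    · rfl

lemma sum_sym (B : ℕ) (f : ℤ → ℝ) :
    ∑ k ∈ (Icc (-(B : ℤ)) B).erase 0, f k = ∑ k ∈ Icc (1 : ℤ) B, (f k + f (-k)) := by
  classical
  have h1 : (Icc (-(B : ℤ)) B).erase 0 = Icc (1 : ℤ) B ∪ Icc (-(B : ℤ)) (-1) := by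
    ext k
    simp only [mem_erase, mem_union, Finset.mem_Icc]
    omega
  have h2 : Disjoint (Icc (1 : ℤ) B) (Icc (-(B : ℤ)) (-1)) := by
    rw [Finset.disjoint_left]
    intro k hk hk'
    rw [Finset.mem_Icc] at hk hk'
    omega
  rw [h1, sum_union h2, sum_add_distrib]
  congr 1
  refine Finset.sum_nbij' (fun k => -k) (fun k => -k) ?_ ?_ ?_ ?_ ?_
  · intro k hk
    rw [Finset.mem_Icc] at *
    omega
  · intro k hk
    rw [Finset.mem_Icc] at *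
    omega
  · intro k _
    exact neg_neg k
  · intro k _
    exact neg_neg k
  · intro k _
    simp only [neg_neg]

/-- the generic summation -/
lemma pos_gen {α : Type*} {g : ℕ → ℤ} {b m : ℤ} {A : ℕ} (hA : 1 ≤ A) (V : Finset α) (B : ℕ)
    (N : α → ℝ → ℝ) {c₁ X₀ : ℝ} (hc₁ : 0 < c₁) (h1 : ∀ X : ℝ, X₀ ≤ X → c₁ * X ≤ ∑ u ∈ V, N u X)
    (h2 : ∀ u ∈ V, ∃ C : ℝ, 1 ≤ C ∧ ∀ X : ℝ, 1 ≤ X → N u X ≤
      C * ∑ k ∈ (Icc (-(B : ℤ)) B).erase 0, ((TX g b m A (A * k) (C * X)).card : ℝ))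
    (h3 : S_SYM g b m A) : S_POS g b m A := by
  classical
  have h2' : ∀ u : α, ∃ C : ℝ, 1 ≤ C ∧ (u ∈ V → ∀ X : ℝ, 1 ≤ X → N u X ≤
      C * ∑ k ∈ (Icc (-(B : ℤ)) B).erase 0, ((TX g b m A (A * k) (C * X)).card : ℝ)) := by
    intro u
    by_cases hu : u ∈ V
    · obtain ⟨C, hC, h⟩ := h2 u hu
      exact ⟨C, hC, fun _ => h⟩
    · exact ⟨1, le_rfl, fun h => absurd h hu⟩
  choose Cu hCu hN using h2'
  set C : ℝ := 1 + ∑ u ∈ V, Cu u with hC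
  have hCu0 : ∀ u, 0 ≤ Cu u := fun u => by linarith [hCu u]
  have hS0 : 0 ≤ ∑ u ∈ V, Cu u := sum_nonneg fun u _ => hCu0 u
  have hCpos : 0 < C := by linarith
  have hCuC : ∀ u ∈ V, Cu u ≤ C := by
    intro u hu
    have := single_le_sum (f := Cu) (fun j _ => hCu0 j) hu
    linarith
  refine ⟨B, c₁ / (2 * C * C), C * max X₀ 1, by positivity, fun Y hY => ?_⟩
  set X : ℝ := Y / C with hX
  have hYX : Y = C * X := by
    rw [hX]
    field_simp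
  have hXX : max X₀ 1 ≤ X := by
    rw [hX, le_div_iff₀ hCpos, mul_comm]
    exact hY
  have hX0 : X₀ ≤ X := (le_max_left _ _).trans hXX
  have hX1 : 1 ≤ X := (le_max_right _ _).trans hXX
  set T : ℝ := ∑ k ∈ Icc (1 : ℤ) B, ((TX g b m A (A * k) Y).card : ℝ) with hT
  have hT0 : 0 ≤ T := sum_nonneg fun k _ => Nat.cast_nonneg _
  have hsum : ∑ k ∈ (Icc (-(B : ℤ)) B).erase 0, ((TX g b m A (A * k) Y).card : ℝ) = 2 * T := by
    rw [sum_sym, hT, mul_sum]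
    refine sum_congr rfl fun k hk => ?_
    have hk1 : 1 ≤ k := (Finset.mem_Icc.1 hk).1
    have h4 := h3 (A * k) Y (mul_ne_zero (by
      have : (A : ℤ) ≠ 0 := by exact_mod_cast (by omega : A ≠ 0)
      exact this) (by omega)) (Dvd.intro _ rfl)
    rw [mul_neg, ← h4]
    ring
  have h4 : ∀ u ∈ V, N u X ≤ Cu u * (2 * T) := by
    intro u hu
    refine (hN u hu X hX1).trans ?_
    refine mul_le_mul_of_nonneg_left ?_ (hCu0 u)
    rw [← hsum]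
    refine sum_le_sum fun k _ => ?_
    have h5 : Cu u * X ≤ Y := by
      rw [hYX]
      exact mul_le_mul_of_nonneg_right (hCuC u hu) (by linarith)
    exact_mod_cast card_le_card (TX_mono g b m A (A * k) h5)
  have h5 : c₁ * X ≤ C * (2 * T) := by
    calc c₁ * X ≤ ∑ u ∈ V, N u X := h1 X hX0
      _ ≤ ∑ u ∈ V, Cu u * (2 * T) := sum_le_sum h4
      _ = (∑ u ∈ V, Cu u) * (2 * T) := by rw [sum_mul]
      _ ≤ C * (2 * T) := mul_le_mul_of_nonneg_right (by linarith) (by linarith)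
  have h6 : c₁ / (2 * C * C) * Y = (c₁ * X) / (2 * C) := by
    rw [hYX]
    field_simp
  rw [h6, div_le_iff₀ (by positivity)]
  linarith

/-- T4, imaginary case -/
theorem posi_of {g : ℕ → ℤ} {b m : ℤ} {A : ℕ} (hA : 1 ≤ A)
    (h1 : S_NEARI g b m A (chi (b ^ 2 - 4 * m) A)) (h2 : S_TRII g b m A) (h3 : S_SYM g b m A) :
    S_POS g b m A := by
  obtain ⟨V, B, c₁, hV, hc₁, X₀, h⟩ := h1
  exact pos_gen hA V B _ hc₁ h (fun u hu => h2 u B (hV u hu).2 (hV u hu).1) h3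

/-- T4, real case -/
theorem posr_of {g : ℕ → ℤ} {b m : ℤ} {A : ℕ} {η : (Qd (b * A) (m * A ^ 2))ˣ} (hA : 1 ≤ A)
    (h1 : S_NEARR g A (chi (b ^ 2 - 4 * m) A) η) (h2 : S_TRIR g b m A η) (h3 : S_SYM g b m A) :
    S_POS g b m A := by
  obtain ⟨V, B, c₁, hV, hc₁, X₀, h⟩ := h1
  exact pos_gen hA V B _ hc₁ h
    (fun u hu => h2 u B (hV u hu).2.2 (hV u hu).1 (hV u hu).2.1) h3

end Pool.Agent.H251.Q648
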